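import Mathlib

/-!
# Products of difference sets in finite commutative rings: a counterexample for all densities
below `1/2`

In the ring `R = (ℤ/2)^{2m}` let `E` be the set of vectors of weight at most `m - w`. All elements
of `E - E`, hence all products of two of them, have weight at most `2m - 2w`. A subring `R₀` of `R`
has a greatest element `e`, so `|R₀| ≤ 2^{weight e}`; if `R₀ ⊆ (E - E)·(E - E)` then
`|R| / |R₀| ≥ 4^w`.
-/

set_option autoImplicit false

namespace Pool.Agent.Results.MP_96ce97_co.BooleanRings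

open Finset

/-- the weight of a vector -/
def wt {ι : Type*} [Fintype ι] (x : ι → ZMod 2) : ℕ := (univ.filter fun i => x i ≠ 0).card

section

variable {ι : Type*} [Fintype ι]

lemma wt_sub_le (x y : ι → ZMod 2) : wt (x - y) ≤ wt x + wt y := by
  classical
  unfold wt
  refine le_trans (card_le_card ?_) (card_union_le _ _)
  intro i
  simp only [mem_filter, mem_univ, true_and, mem_union, Pi.sub_apply]
  intro h
  by_contra hcon
  rw [not_or, not_not, not_not] at hcon
  exact h (by rw [hcon.1, hcon.2, sub_zero])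

lemma wt_mul_le (x y : ι → ZMod 2) : wt (x * y) ≤ wt x := by
  classical
  unfold wt
  refine card_le_card ?_
  intro i
  simp only [mem_filter, mem_univ, true_and, Pi.mul_apply]
  intro h hx
  exact h (by rw [hx, zero_mul])

lemma zmod2 (a : ZMod 2) (h : a ≠ 0) : a = 1 := by
  revert h; revert a; decide

/-- vectors and subsets of the index set -/
def toFinset : (ι → ZMod 2) → Finset ι := fun x => univ.filter fun i => x i ≠ 0

lemma toFinset_inj : Function.Injective (toFinset : (ι → ZMod 2) → Finset ι) := by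
  intro x y h
  funext i
  have hi : (i ∈ toFinset x) ↔ (i ∈ toFinset y) := by rw [h]
  simp only [toFinset, mem_filter, mem_univ, true_and] at hi
  by_cases hx : x i = 0
  · by_cases hy : y i = 0
    · rw [hx, hy]
    · exact absurd hx (hi.2 hy)
  · rw [zmod2 _ hx, zmod2 _ (hi.1 hx)]

lemma card_wt_eq_le (j : ℕ) [DecidableEq ι] :
    (univ.filter fun x : ι → ZMod 2 => wt x = j).card ≤ (Fintype.card ι).choose j := by
  rw [← Finset.card_univ (α := ι), ← card_powersetCard]
  refine card_le_card_of_injOn toFinset ?_ (toFinset_inj.injOn)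
  intro x hx
  rw [mem_coe, mem_filter] at hx
  rw [mem_coe, mem_powersetCard]
  exact ⟨subset_univ _, hx.2⟩

/-- a subring (not necessarily containing `1`) has few elements if all its elements have small
weight -/
lemma card_subring_le [DecidableEq ι] (R₀ : NonUnitalSubring (ι → ZMod 2)) (d : ℕ)
    (h : ∀ x ∈ R₀, wt x ≤ d) : Nat.card R₀ ≤ 2 ^ d := by
  classical
  obtain ⟨e, he, hmax⟩ := Finset.exists_max_image (univ.filter fun x : ι → ZMod 2 => x ∈ R₀) wt
    ⟨0, by simp [R₀.zero_mem]⟩
  simp only [mem_filter, mem_univ, true_and] at he hmax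
  -- every element of `R₀` is supported in the support of `e`
  have hsupp : ∀ x ∈ R₀, ∀ i, x i ≠ 0 → e i ≠ 0 := by
    intro x hx i hxi hei
    have hmem : e + x + e * x ∈ R₀ := R₀.add_mem (R₀.add_mem he hx) (R₀.mul_mem he hx)
    have hlt : wt e < wt (e + x + e * x) := by
      unfold wt
      apply card_lt_card
      rw [Finset.ssubset_iff_of_subset]
      · refine ⟨i, ?_, ?_⟩
        · simp only [mem_filter, mem_univ, true_and, Pi.add_apply, Pi.mul_apply]
          rw [hei, zero_mul, zero_add, add_zero]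
          exact hxi
        · simp [hei]
      · intro j
        simp only [mem_filter, mem_univ, true_and, Pi.add_apply, Pi.mul_apply]
        intro hj
        rw [zmod2 _ hj]
        generalize x j = a
        revert a; decide
    exact absurd (hmax _ hmem) (not_le.2 hlt)
  -- count
  have hle : Nat.card R₀ ≤ Nat.card {S : Finset ι // S ⊆ toFinset e} := by
    refine Nat.card_le_card_of_injective
      (fun x => ⟨toFinset x.1, ?_⟩) ?_
    · intro i hi
      simp only [toFinset, mem_filter, mem_univ, true_and] at hi ⊢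
      exact hsupp x.1 x.2 i hi
    · intro x y hxy
      apply Subtype.ext
      exact toFinset_inj (congrArg Subtype.val hxy)
  have hc : Nat.card {S : Finset ι // S ⊆ toFinset e} = 2 ^ (wt e) := by
    rw [Nat.card_eq_fintype_card, Fintype.card_of_subtype (toFinset e).powerset
      (fun S => by simp), card_powerset]
    rfl
  rw [hc] at hle
  exact hle.trans (Nat.pow_le_pow_right (by norm_num) (h e he))

end

/-- the central binomial coefficient is small -/
lemma central (m : ℕ) : (Nat.centralBinom m) ^ 2 * (2 * m + 1) ≤ 16 ^ m := by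
  induction m with
  | zero => simp
  | succ m ih =>
    have h := Nat.succ_mul_centralBinom_succ m
    have h2 : ((m + 1) ^ 2) * ((Nat.centralBinom (m + 1)) ^ 2 * (2 * (m + 1) + 1)) ≤
        (m + 1) ^ 2 * 16 ^ (m + 1) := by
      calc ((m + 1) ^ 2) * ((Nat.centralBinom (m + 1)) ^ 2 * (2 * (m + 1) + 1))
          = ((m + 1) * Nat.centralBinom (m + 1)) ^ 2 * (2 * m + 3) := by ring
        _ = (2 * (2 * m + 1) * Nat.centralBinom m) ^ 2 * (2 * m + 3) := by rw [h]
        _ = 4 * ((2 * m + 1) * (2 * m + 3)) * ((Nat.centralBinom m) ^ 2 * (2 * m + 1)) := by ring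
        _ ≤ 4 * ((2 * m + 1) * (2 * m + 3)) * 16 ^ m := Nat.mul_le_mul_left _ ih
        _ ≤ 4 * (4 * (m + 1) ^ 2) * 16 ^ m := by
            apply Nat.mul_le_mul_right
            nlinarith
        _ = (m + 1) ^ 2 * 16 ^ (m + 1) := by ring
    exact Nat.le_of_mul_le_mul_left h2 (by positivity)

/-- the set of the vectors of weight at most `m - w` is large -/
lemma card_E (m w : ℕ) (hw : w ≤ m) :
    4 ^ m ≤ 2 * (univ.filter fun x : Fin (2 * m) → ZMod 2 => wt x + w ≤ m).card +
      2 * w * Nat.centralBinom m := by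
  classical
  -- the total number of vectors
  have htot : (univ : Finset (Fin (2 * m) → ZMod 2)).card = 4 ^ m := by
    rw [card_univ, Fintype.card_fun, ZMod.card, Fintype.card_fin, pow_mul]; norm_num
  set E := univ.filter fun x : Fin (2 * m) → ZMod 2 => wt x + w ≤ m with hE
  set E' := univ.filter fun x : Fin (2 * m) → ZMod 2 => m + w ≤ wt x with hE'
  have hcompl : ∀ x : Fin (2 * m) → ZMod 2, wt (1 + x) + wt x = 2 * m := by
    intro x
    have h1 : (univ.filter fun i => (1 + x) i ≠ 0) = (univ.filter fun i => ¬ x i ≠ 0) := by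
      apply filter_congr
      intro i _
      rw [Pi.add_apply, Pi.one_apply]
      generalize x i = a
      revert a; decide
    unfold wt
    rw [h1, add_comm, Finset.card_filter_add_card_filter_not, card_univ, Fintype.card_fin]
  have hEE' : E'.card = E.card := by
    apply card_bij (fun x _ => 1 + x)
    · intro x hx
      rw [hE', mem_filter] at hx
      rw [hE, mem_filter]
      have := hcompl x
      exact ⟨mem_univ _, by omega⟩
    · intro x _ y _ h
      exact add_left_cancel h
    · intro y hy
      refine ⟨1 + y, ?_, ?_⟩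
      · rw [hE, mem_filter] at hy
        rw [hE', mem_filter]
        have := hcompl y
        exact ⟨mem_univ _, by omega⟩
      · funext i
        simp only [Pi.add_apply, Pi.one_apply]
        generalize y i = a
        revert a; decide
  -- the middle layers
  have hmid : (univ : Finset (Fin (2 * m) → ZMod 2)) ⊆ (E ∪ E') ∪
      (Finset.Ico (m - w) (m + w)).biUnion
        (fun j => univ.filter fun x : Fin (2 * m) → ZMod 2 => wt x = j) := by
    intro x _
    simp only [mem_union, mem_biUnion, mem_filter, mem_univ, true_and, mem_Ico, hE, hE']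
    by_cases h1 : wt x + w ≤ m
    · exact Or.inl (Or.inl h1)
    · by_cases h2 : m + w ≤ wt x
      · exact Or.inl (Or.inr h2)
      · exact Or.inr ⟨wt x, by omega, rfl⟩
  have h1 := card_le_card hmid
  rw [htot] at h1
  have h2 : ((Finset.Ico (m - w) (m + w)).biUnion
        (fun j => univ.filter fun x : Fin (2 * m) → ZMod 2 => wt x = j)).card ≤
      2 * w * Nat.centralBinom m := by
    refine (card_biUnion_le).trans ?_
    refine (sum_le_card_nsmul _ _ (Nat.centralBinom m) ?_).trans ?_
    · intro j _
      refine (card_wt_eq_le j).trans ?_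
      rw [Fintype.card_fin]
      exact Nat.choose_le_centralBinom j m
    · rw [Nat.card_Ico, smul_eq_mul]
      apply Nat.mul_le_mul_right
      omega
  have h3 := (card_union_le (E ∪ E') ((Finset.Ico (m - w) (m + w)).biUnion
        (fun j => univ.filter fun x : Fin (2 * m) → ZMod 2 => wt x = j)))
  have h4 := card_union_le E E'
  omega

/-- **Theorem.** Let `α < 1/2`. For all `N` and `k` there are a finite commutative ring `R` with
`|R| ≥ N` and a set `E ⊆ R` with `|E| ≥ α |R|` such that every subring `R₀` of `R` (not necessarily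
containing `1`) which is contained in the set `(E - E)·(E - E)` satisfies `|R| / |R₀| > k`. -/
theorem result : ∀ α : ℝ, α < 1 / 2 → ∀ N k : ℕ,
    ∃ (R : Type) (_ : CommRing R) (_ : Finite R) (E : Set R),
      N ≤ Nat.card R ∧ α * (Nat.card R : ℝ) ≤ (E.ncard : ℝ) ∧
      ∀ R₀ : NonUnitalSubring R,
        (∀ z ∈ R₀, ∃ x ∈ E, ∃ y ∈ E, ∃ x' ∈ E, ∃ y' ∈ E, z = (x - y) * (x' - y')) →
        k * Nat.card R₀ < Nat.card R := by
  classical
  intro α hα N k
  -- the choice of `m`
  obtain ⟨m, hm⟩ : ∃ m : ℕ, (2 * k / (1 - 2 * α)) ^ 2 + N + k + 1 ≤ (m : ℝ) :=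
    exists_nat_ge _
  have hα' : 0 < 1 - 2 * α := by linarith
  have hq : 0 ≤ (2 * k / (1 - 2 * α)) ^ 2 := sq_nonneg _
  have hkm : k ≤ m := by
    have : (k : ℝ) ≤ m := by linarith [(Nat.cast_nonneg N : (0 : ℝ) ≤ N)]
    exact_mod_cast this
  have hNm : N ≤ m := by
    have : (N : ℝ) ≤ m := by linarith [(Nat.cast_nonneg k : (0 : ℝ) ≤ k)]
    exact_mod_cast this
  refine ⟨Fin (2 * m) → ZMod 2, inferInstance, inferInstance,
    {x | wt x + k ≤ m}, ?_, ?_, ?_⟩
  · rw [Nat.card_eq_fintype_card, Fintype.card_fun, ZMod.card, Fintype.card_fin]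
    exact hNm.trans ((Nat.lt_two_pow_self (n := m)).le.trans
      (Nat.pow_le_pow_right (by norm_num) (by omega)))
  · have hcardR : (Nat.card (Fin (2 * m) → ZMod 2) : ℝ) = 4 ^ m := by
      rw [Nat.card_eq_fintype_card, Fintype.card_fun, ZMod.card, Fintype.card_fin, pow_mul]
      push_cast; norm_num
    have hE : ({x : Fin (2 * m) → ZMod 2 | wt x + k ≤ m} : Set _) =
        ((univ.filter fun x : Fin (2 * m) → ZMod 2 => wt x + k ≤ m : Finset _) : Set _) := by
      ext x; simp
    rw [hcardR, hE, Set.ncard_coe_finset]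
    have h1 := card_E m k hkm
    have h2 := central m
    generalize (univ.filter fun x : Fin (2 * m) → ZMod 2 => wt x + k ≤ m).card = e at h1 ⊢
    generalize Nat.centralBinom m = c at h1 h2
    have h1' : (4 : ℝ) ^ m ≤ 2 * e + 2 * k * c := by exact_mod_cast h1
    have h2' : (c : ℝ) ^ 2 * (2 * m + 1) ≤ 16 ^ m := by exact_mod_cast h2
    -- `2 k c ≤ (1 - 2 α) 4^m`
    have h3 : 2 * k * (c : ℝ) ≤ (1 - 2 * α) * 4 ^ m := by
      have h4 : (2 * k * (c : ℝ)) ^ 2 ≤ ((1 - 2 * α) * 4 ^ m) ^ 2 := by
        have h5 : (2 * k / (1 - 2 * α)) ^ 2 ≤ 2 * m + 1 := by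
          have : (0 : ℝ) ≤ m := Nat.cast_nonneg m
          have : (0 : ℝ) ≤ N := Nat.cast_nonneg N
          have : (0 : ℝ) ≤ k := Nat.cast_nonneg k
          linarith
        have h6 : (2 * k : ℝ) ^ 2 ≤ (2 * m + 1) * (1 - 2 * α) ^ 2 := by
          rw [div_pow, div_le_iff₀ (by positivity)] at h5
          exact h5
        have h7 : (16 : ℝ) ^ m = (4 ^ m) ^ 2 := by
          rw [← pow_mul, mul_comm, pow_mul]; norm_num
        calc (2 * k * (c : ℝ)) ^ 2 = (2 * k) ^ 2 * c ^ 2 := by ring
          _ ≤ ((2 * m + 1) * (1 - 2 * α) ^ 2) * c ^ 2 :=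
            mul_le_mul_of_nonneg_right h6 (by positivity)
          _ = (1 - 2 * α) ^ 2 * (c ^ 2 * (2 * m + 1)) := by ring
          _ ≤ (1 - 2 * α) ^ 2 * 16 ^ m := mul_le_mul_of_nonneg_left h2' (by positivity)
          _ = ((1 - 2 * α) * 4 ^ m) ^ 2 := by rw [h7]; ring
      exact (abs_le_of_sq_le_sq' h4 (by positivity)).2
    linarith
  · intro R₀ hR₀
    have hwt : ∀ z ∈ R₀, wt z ≤ 2 * m - 2 * k := by
      intro z hz
      obtain ⟨x, hx, y, hy, x', hx', y', hy', rfl⟩ := hR₀ z hz
      rw [Set.mem_ofPred_eq] at hx hy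
      have h1 := wt_mul_le (x - y) (x' - y')
      have h2 := wt_sub_le x y
      omega
    have h1 := card_subring_le R₀ _ hwt
    have h2 : Nat.card (Fin (2 * m) → ZMod 2) = 2 ^ (2 * m) := by
      rw [Nat.card_eq_fintype_card, Fintype.card_fun, ZMod.card, Fintype.card_fin]
    rw [h2]
    calc k * Nat.card R₀ ≤ k * 2 ^ (2 * m - 2 * k) := Nat.mul_le_mul_left _ h1
      _ < 2 ^ (2 * k) * 2 ^ (2 * m - 2 * k) := by
          apply Nat.mul_lt_mul_of_pos_right _ (by positivity)
          exact lt_of_lt_of_le (Nat.lt_two_pow_self (n := k))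
            (Nat.pow_le_pow_right (by norm_num) (by omega))
      _ = 2 ^ (2 * m) := by rw [← pow_add]; congr 1; omega

end Pool.Agent.Results.MP_96ce97_co.BooleanRings
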